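import Pool.Agent.helper68.SF.SpecS

set_option autoImplicit false

namespace SF

open Pool.Agent.helper72.Sq MeasureTheory Set

/-- the weighted count of one cone -/
noncomputable def PS_N (f : List Bool → ℝ) (P : Tri) (t : ℝ) : ℝ :=
  ∑ᶠ w ∈ {w : List Bool | len (desc w P).2.2 ≤ t}, f w

open Classical in
theorem PS_N_eq (f : List Bool → ℝ) (P : Tri) (R t : ℝ)
    (hfin : {w : List Bool | len (desc w P).2.2 ≤ R}.Finite) (ht : t ≤ R) :
    PS_N f P t = ∑ w ∈ hfin.toFinset, if len (desc w P).2.2 ≤ t then f w else 0 := by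
  rw [PS_N, finsum_mem_def]
  rw [finsum_eq_sum_of_support_subset (s := hfin.toFinset)]
  · refine Finset.sum_congr rfl fun w _ => ?_
    by_cases h : len (desc w P).2.2 ≤ t
    · rw [if_pos h, indicator_of_mem (show w ∈ {w : List Bool | len (desc w P).2.2 ≤ t} from h)]
    · rw [if_neg h, indicator_of_notMem (show w ∉ {w : List Bool | len (desc w P).2.2 ≤ t} from h)]
  · intro w hw
    rw [Finite.coe_toFinset]
    have h1 : w ∈ {w : List Bool | len (desc w P).2.2 ≤ t} := by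
      by_contra h
      exact hw (indicator_of_notMem h _)
    exact le_trans h1 ht

theorem PS_ind (Φ : ℝ → ℝ) (hΦ : ContDiff ℝ 1 Φ) (h1 : Φ 1 = 0) (a : ℝ) (ha : 0 < a) (ha1 : a ≤ 1) :
    IntegrableOn (indicator (Ici a) (deriv Φ)) (Ioc 0 1) ∧
    ∫ ρ in Ioc (0 : ℝ) 1, indicator (Ici a) (deriv Φ) ρ = -Φ a := by
  have hc : Continuous (deriv Φ) := hΦ.continuous_deriv le_rfl
  have hint : IntegrableOn (deriv Φ) (Ioc 0 1) :=
    (hc.integrableOn_Icc (a := 0) (b := 1)).mono_set Ioc_subset_Icc_self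
  refine ⟨hint.indicator measurableSet_Ici, ?_⟩
  rw [setIntegral_indicator measurableSet_Ici]
  have h2 : Ioc (0 : ℝ) 1 ∩ Ici a = Icc a 1 := by
    ext x
    simp only [mem_inter_iff, mem_Ioc, mem_Ici, mem_Icc]
    constructor
    · rintro ⟨⟨_, h⟩, h'⟩
      exact ⟨h', h⟩
    · rintro ⟨h, h'⟩
      exact ⟨⟨lt_of_lt_of_le ha h, h'⟩, h⟩
  rw [h2, integral_Icc_eq_integral_Ioc, ← intervalIntegral.integral_of_le ha1]
  have h3 : ∫ x in a..1, deriv Φ x = Φ 1 - Φ a := by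
    apply intervalIntegral.integral_eq_sub_of_hasDerivAt
    · intro x _
      exact (hΦ.differentiable one_ne_zero x).hasDerivAt
    · exact hc.intervalIntegrable _ _
  rw [h3, h1, zero_sub]

theorem PS_cone (hPHI : PHI_stmt) (P : Tri) (c : ℝ) (hc : 0 < c)
    (hlow : ∀ w : List Bool, c ≤ len (desc w P).2.2)
    (hfin : ∀ T : ℝ, 0 ≤ T → {w : List Bool | len (desc w P).2.2 ≤ T}.Finite)
    (g : ℝ → ℝ) (hg : Prof g) (R : ℝ) (hR : 1 ≤ R) :
    IntegrableOn (fun ρ => PS_N pw P (R * ρ) * deriv (Ph g) ρ) (Ioc 0 1) ∧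
    ∑ᶠ w : List Bool, pw w * Ph g (len (desc w P).2.2 / R) =
      -∫ ρ in Ioc (0 : ℝ) 1, PS_N pw P (R * ρ) * deriv (Ph g) ρ := by
  classical
  obtain ⟨-, hΦ, -, hΦ1, -, -⟩ := hPHI g hg
  have hΦ' : ContDiff ℝ 1 (Ph g) := hΦ.of_le (by exact_mod_cast le_top)
  have hR0 : 0 < R := by linarith
  have hW := hfin R hR0.le
  set W : Finset (List Bool) := hW.toFinset with hWdef
  have hmem : ∀ w ∈ W, 0 < len (desc w P).2.2 / R ∧ len (desc w P).2.2 / R ≤ 1 := by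
    intro w hw
    have h1 : len (desc w P).2.2 ≤ R := hW.mem_toFinset.1 hw
    exact ⟨div_pos (lt_of_lt_of_le hc (hlow w)) hR0, (div_le_one hR0).2 h1⟩
  have hfun : EqOn (fun ρ => ∑ w ∈ W, pw w *
      indicator (Ici (len (desc w P).2.2 / R)) (deriv (Ph g)) ρ)
      (fun ρ => PS_N pw P (R * ρ) * deriv (Ph g) ρ) (Ioc 0 1) := by
    intro ρ hρ
    have hρ1 : R * ρ ≤ R := by nlinarith [hρ.1, hρ.2]
    simp only
    rw [PS_N_eq pw P R (R * ρ) hW hρ1, Finset.sum_mul]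
    refine Finset.sum_congr rfl fun w _ => ?_
    by_cases h : len (desc w P).2.2 ≤ R * ρ
    · rw [if_pos h, indicator_of_mem]
      exact (div_le_iff₀' hR0).2 h
    · rw [if_neg h, indicator_of_notMem, mul_zero, zero_mul]
      exact fun h' => h ((div_le_iff₀' hR0).1 h')
  have hint : ∀ w ∈ W, IntegrableOn (fun ρ => pw w *
      indicator (Ici (len (desc w P).2.2 / R)) (deriv (Ph g)) ρ) (Ioc 0 1) := fun w hw =>
    (PS_ind (Ph g) hΦ' (hΦ1 1 le_rfl) _ (hmem w hw).1 (hmem w hw).2).1.const_mul (pw w)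
  have hint2 : IntegrableOn (fun ρ => ∑ w ∈ W, pw w *
      indicator (Ici (len (desc w P).2.2 / R)) (deriv (Ph g)) ρ) (Ioc 0 1) :=
    integrable_finsetSum W hint
  refine ⟨hint2.congr_fun hfun measurableSet_Ioc, ?_⟩
  rw [← setIntegral_congr_fun measurableSet_Ioc hfun, integral_finsetSum W hint]
  rw [finsum_eq_sum_of_support_subset (s := W)]
  · rw [← Finset.sum_neg_distrib]
    refine Finset.sum_congr rfl fun w hw => ?_
    rw [integral_const_mul,
      (PS_ind (Ph g) hΦ' (hΦ1 1 le_rfl) _ (hmem w hw).1 (hmem w hw).2).2]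
    ring
  · intro w hw
    rw [hWdef, Finite.coe_toFinset]
    show len (desc w P).2.2 ≤ R
    by_contra h
    apply hw
    show pw w * Ph g (len (desc w P).2.2 / R) = 0
    rw [hΦ1 _ ((one_le_div hR0).2 (not_le.1 h).le), mul_zero]

/-- the weights agree up to finitely many words -/
theorem PS_diff (hBR : BR_stmt) : ∃ K : ℝ, 0 ≤ K ∧ ∀ (P : Tri) (t : ℝ),
    {w : List Bool | len (desc w P).2.2 ≤ t}.Finite → |PS_N pw P t + PS_N psi0 P t| ≤ K := by
  classical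
  obtain ⟨hb1, hb2, -⟩ := hBR
  have hS : {w : List Bool | w.length < 4}.Finite := List.finite_length_lt Bool 4
  refine ⟨2 * hS.toFinset.card, by positivity, fun P t ht => ?_⟩
  rw [PS_N_eq pw P t t ht le_rfl, PS_N_eq psi0 P t t ht le_rfl, ← Finset.sum_add_distrib]
  have h1 : ∑ w ∈ ht.toFinset, ((if len (desc w P).2.2 ≤ t then pw w else 0) +
      (if len (desc w P).2.2 ≤ t then psi0 w else 0)) =
      ∑ w ∈ ht.toFinset ∩ hS.toFinset, ((if len (desc w P).2.2 ≤ t then pw w else 0) +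
      (if len (desc w P).2.2 ≤ t then psi0 w else 0)) := by
    symm
    apply Finset.sum_subset Finset.inter_subset_left
    intro w hw hw'
    have h2 : 4 ≤ w.length := by
      by_contra h
      apply hw'
      rw [Finset.mem_inter]
      exact ⟨hw, hS.mem_toFinset.2 (not_le.1 h)⟩
    rw [hb1 w h2]
    split_ifs <;> simp
  rw [h1]
  refine (Finset.abs_sum_le_sum_abs _ _).trans ?_
  have h2 : ∀ w ∈ ht.toFinset ∩ hS.toFinset, |((if len (desc w P).2.2 ≤ t then pw w else 0) +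
      (if len (desc w P).2.2 ≤ t then psi0 w else 0))| ≤ 2 := by
    intro w _
    obtain ⟨e1, e2⟩ := hb2 w
    split_ifs
    · exact (abs_add_le _ _).trans (by linarith)
    · simp
  refine (Finset.sum_le_sum h2).trans ?_
  rw [Finset.sum_const, nsmul_eq_mul, mul_comm]
  refine mul_le_mul_of_nonneg_left ?_ (by norm_num)
  exact_mod_cast Finset.card_le_card Finset.inter_subset_right

/-- small `t` -/
theorem PS_small (hBR : BR_stmt) (P : Tri) (c : ℝ) (hc : 0 < c)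
    (hlow : ∀ w : List Bool, c ≤ len (desc w P).2.2)
    (hfin : ∀ T : ℝ, 0 ≤ T → {w : List Bool | len (desc w P).2.2 ≤ T}.Finite) :
    ∃ K : ℝ, 0 ≤ K ∧ ∀ t : ℝ, 0 ≤ t → t ≤ 1 → |PS_N pw P t| ≤ K * t := by
  classical
  obtain ⟨-, hb2, -⟩ := hBR
  have hW := hfin 1 zero_le_one
  refine ⟨hW.toFinset.card / c, by positivity, fun t ht0 ht1 => ?_⟩
  rw [PS_N_eq pw P 1 t hW ht1]
  by_cases htc : t < c
  · rw [Finset.sum_eq_zero, abs_zero]
    · positivity
    · intro w _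
      rw [if_neg]
      exact not_le.2 (lt_of_lt_of_le htc (hlow w))
  · rw [not_lt] at htc
    refine (Finset.abs_sum_le_sum_abs _ _).trans ?_
    have h2 : ∀ w ∈ hW.toFinset, |(if len (desc w P).2.2 ≤ t then pw w else 0)| ≤ 1 := by
      intro w _
      split_ifs
      · exact (hb2 w).1
      · simp
    refine (Finset.sum_le_sum h2).trans ?_
    rw [Finset.sum_const, nsmul_eq_mul, mul_one, div_mul_eq_mul_div, le_div_iff₀ hc]
    exact mul_le_mul_of_nonneg_left htc (by positivity)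

theorem PS_count (hBR : BR_stmt) (hLB : LB_stmt) (P : Tri) (hP : Adm P) (hQ : QL P) :
    ∃ c C : ℝ, ∀ t : ℝ, 0 ≤ t → |PS_N pw P t + PS_N pw (Tw P) t + c * t ^ 2| ≤ C * t := by
  obtain ⟨c0, C0, hQ⟩ := hQ
  obtain ⟨a1, A1, ha1, -, hlow1, -, hfin1⟩ := hLB P hP
  obtain ⟨a2, A2, ha2, -, hlow2, -, hfin2⟩ := hLB (Tw P) hP.Tw
  have hf1 : ∀ T : ℝ, 0 ≤ T → {w : List Bool | len (desc w P).2.2 ≤ T}.Finite :=
    fun T hT => (hfin1 T hT).2.2.1
  have hf2 : ∀ T : ℝ, 0 ≤ T → {w : List Bool | len (desc w (Tw P)).2.2 ≤ T}.Finite :=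
    fun T hT => (hfin2 T hT).2.2.1
  obtain ⟨K, hK, hdiff⟩ := PS_diff hBR
  obtain ⟨K1, hK1, hs1⟩ := PS_small hBR P a1 ha1 (fun w => (hlow1 w).2.2) hf1
  obtain ⟨K2, hK2, hs2⟩ := PS_small hBR (Tw P) a2 ha2 (fun w => (hlow2 w).2.2) hf2
  have hC0 : 0 ≤ C0 := by
    have h := (abs_nonneg _).trans (hQ 1 le_rfl)
    linarith
  refine ⟨c0, C0 + 2 * K + K1 + K2 + |c0|, fun t ht => ?_⟩
  rcases le_or_gt 1 t with h1 | h1
  · have e1 := hdiff P t (hf1 t ht)
    have e2 := hdiff (Tw P) t (hf2 t ht)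
    have e3 := hQ t h1
    have e4 : SC P t = PS_N psi0 P t + PS_N psi0 (Tw P) t := rfl
    rw [e4] at e3
    rw [abs_le] at e1 e2 e3 ⊢
    have e5 := abs_nonneg c0
    constructor <;> nlinarith
  · have e1 := hs1 t ht h1.le
    have e2 := hs2 t ht h1.le
    have e3 : |c0 * t ^ 2| ≤ |c0| * t := by
      rw [abs_mul, abs_of_nonneg (by positivity : (0 : ℝ) ≤ t ^ 2)]
      refine mul_le_mul_of_nonneg_left ?_ (abs_nonneg _)
      nlinarith
    calc |PS_N pw P t + PS_N pw (Tw P) t + c0 * t ^ 2| ≤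
        |PS_N pw P t| + |PS_N pw (Tw P) t| + |c0 * t ^ 2| := abs_add_three _ _ _
      _ ≤ K1 * t + K2 * t + |c0| * t := add_le_add (add_le_add e1 e2) e3
      _ ≤ (C0 + 2 * K + K1 + K2 + |c0|) * t := by nlinarith

theorem PS (hBR : BR_stmt) (hLB : LB_stmt) (hPHI : PHI_stmt) : PS_stmt := by
  intro P hP hQ
  obtain ⟨c, C, hcount⟩ := PS_count hBR hLB P hP hQ
  obtain ⟨a1, A1, ha1, -, hlow1, -, hfin1⟩ := hLB P hP
  obtain ⟨a2, A2, ha2, -, hlow2, -, hfin2⟩ := hLB (Tw P) hP.Tw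
  refine ⟨c, C, fun g R hg hR => ?_⟩
  obtain ⟨i1, e1⟩ := PS_cone hPHI P a1 ha1 (fun w => (hlow1 w).2.2)
    (fun T hT => (hfin1 T hT).2.2.1) g hg R hR
  obtain ⟨i2, e2⟩ := PS_cone hPHI (Tw P) a2 ha2 (fun w => (hlow2 w).2.2)
    (fun T hT => (hfin2 T hT).2.2.1) g hg R hR
  obtain ⟨-, hΦ, -, -, -, -⟩ := hPHI g hg
  have hΦ' : ContDiff ℝ 1 (Ph g) := hΦ.of_le (by exact_mod_cast le_top)
  have hc : Continuous (deriv (Ph g)) := hΦ'.continuous_deriv le_rfl
  have i3 : IntegrableOn (fun ρ : ℝ => c * R ^ 2 * (ρ ^ 2 * deriv (Ph g) ρ)) (Ioc 0 1) := by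
    have h : Continuous (fun ρ : ℝ => c * R ^ 2 * (ρ ^ 2 * deriv (Ph g) ρ)) := by fun_prop
    exact (h.integrableOn_Icc (a := 0) (b := 1)).mono_set Ioc_subset_Icc_self
  have i4 : IntegrableOn (fun ρ : ℝ => C * R * (ρ * |deriv (Ph g) ρ|)) (Ioc 0 1) := by
    have h : Continuous (fun ρ : ℝ => C * R * (ρ * |deriv (Ph g) ρ|)) := by fun_prop
    exact (h.integrableOn_Icc (a := 0) (b := 1)).mono_set Ioc_subset_Icc_self
  have e3 : Sp g P R - c * R ^ 2 * ∫ ρ in (0 : ℝ)..1, ρ ^ 2 * deriv (Ph g) ρ =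
      -∫ ρ in Ioc (0 : ℝ) 1, (PS_N pw P (R * ρ) * deriv (Ph g) ρ +
        PS_N pw (Tw P) (R * ρ) * deriv (Ph g) ρ + c * R ^ 2 * (ρ ^ 2 * deriv (Ph g) ρ)) := by
    have h12 : IntegrableOn (fun ρ : ℝ => PS_N pw P (R * ρ) * deriv (Ph g) ρ +
        PS_N pw (Tw P) (R * ρ) * deriv (Ph g) ρ) (Ioc 0 1) := i1.add i2
    have h3 := integral_add h12 i3
    have h4 := integral_add i1 i2
    rw [h3, h4, integral_const_mul, Sp, e1, e2, intervalIntegral.integral_of_le zero_le_one]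
    ring
  rw [e3, abs_neg, ← Real.norm_eq_abs]
  refine (norm_integral_le_of_norm_le i4 ?_).trans (le_of_eq ?_)
  · refine (ae_restrict_iff' measurableSet_Ioc).2 (Filter.Eventually.of_forall fun ρ hρ => ?_)
    have hRρ : 0 ≤ R * ρ := mul_nonneg (by linarith) hρ.1.le
    have h1 : PS_N pw P (R * ρ) * deriv (Ph g) ρ + PS_N pw (Tw P) (R * ρ) * deriv (Ph g) ρ +
        c * R ^ 2 * (ρ ^ 2 * deriv (Ph g) ρ) =
        (PS_N pw P (R * ρ) + PS_N pw (Tw P) (R * ρ) + c * (R * ρ) ^ 2) * deriv (Ph g) ρ := by ring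
    rw [h1, norm_mul, Real.norm_eq_abs, Real.norm_eq_abs]
    calc |PS_N pw P (R * ρ) + PS_N pw (Tw P) (R * ρ) + c * (R * ρ) ^ 2| * |deriv (Ph g) ρ| ≤
        (C * (R * ρ)) * |deriv (Ph g) ρ| :=
          mul_le_mul_of_nonneg_right (hcount _ hRρ) (abs_nonneg _)
      _ = C * R * (ρ * |deriv (Ph g) ρ|) := by ring
  · rw [integral_const_mul, Ms, intervalIntegral.integral_of_le zero_le_one]

end SF
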