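import Mathlib

/-!
# Project SF (MP_37e5fa_nt): the square free part of a Fermat number

THEOREM. If `4 ^ h + 1 = E C²` with `h ≥ 1` and `E` square free, then `2 ^ h + C √E` is the fundamental unit of `ℤ[√E]` (row STR), and
`h ≤ 11 √E (log E)²`. So the square free part `E` of `F_m = 2 ^ (2 ^ m) + 1` satisfies `4 ^ m ≤ 1800 m⁴ E`.

Proof. The lower bound for the units is of the type of Størmer's theorem (POW, EVN, CHB, STR). The upper bound: a chain of good approximations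
`x_i / y_i` of `√E` with `|x_i² - E y_i²| ≤ 2 √E` and `y_i ≤ (2 √E + 2) ^ i` (DIR, CHN); two of the first `R + 1` of them have the same
norm `t` and the same class `x y⁻¹` modulo `t` (a square root of `E` modulo `t`; there are at most `2 d(t)` of them, RHO), `R = 4 ∑_(t ≤ 2√E) d(t)`, and
give a unit of size at most `(2 √E + 2) ^ (R + 1)` (UNT, PIG).

Rules: file `Pool/Agent/<seat>/SF/XXX.lean`, import this file, namespace `Pool.Agent.SF`, `theorem XXX (hYYY : YYY_stmt) ... : XXX_stmt`; auxiliary lemmas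
start with `XXX_`. No double quotes, no `convert`, no `congr!`, no `native_decide`.
-/

set_option autoImplicit false

open Finset

namespace Pool.Agent.SF

/-- number of square roots of `E` modulo `t` -/
def rho (E t : ℕ) : ℕ := ((range t).filter (fun P : ℕ => (t : ℤ) ∣ (P : ℤ) ^ 2 - (E : ℤ))).card

/-- **POW** (short, 20 lines). Recurrence for the powers of a solution of Pell's equation.
Proof. `pow_succ`, `Pell.Solution₁.x_mul`, `y_mul`; with `X = (a ^ n).x`, `Y = (a ^ n).y`: `(a ^ (n+1)).x = X x + d Y y`, `(a ^ (n+1)).y = X y + Y x`,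
`(a ^ (n+2)).x = (X x + d Y y) x + d (X y + Y x) y`, and `x² - d y² = 1` (`a.prop`): `linear_combination`. -/
def POW_stmt : Prop := ∀ (d : ℤ) (a : Pell.Solution₁ d) (n : ℕ),
  (a ^ (n + 2)).x = 2 * a.x * (a ^ (n + 1)).x - (a ^ n).x

/-- **EVN** (short, 15 lines). Proof. `a ^ (2 i) = a ^ i * a ^ i`, `x_mul`: `(a ^ (2i)).x = X² + d Y²`, and `X² - d Y² = 1`. -/
def EVN_stmt : Prop := ∀ (d : ℤ) (a : Pell.Solution₁ d) (i : ℕ),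
  (a ^ (2 * i)).x - 1 = 2 * d * ((a ^ i).y) ^ 2

/-- **CHB** (short-medium, 50 lines). uses: POW. Proof. Let `x = a.x`, `T n = (a ^ n).x` (`T 0 = 1, T 1 = x, T (n+2) = 2 x T (n+1) - T n`) and
`w 0 = 1, w 1 = 2 x + 1, w (n+2) = 2 x w (n+1) - w n` (define `w` by recursion on pairs, or `Nat.rec` with values in `ℤ × ℤ`). Induction on `n` for the three
identities `A n : (x-1) (w n)² = T (2n+1) - 1`, `B n : (x-1) w n w (n+1) = T (2n+2) - x`, `A (n+1)`. Start: `T 3 - 1 = 4x³ - 3x - 1 = (x-1)(2x+1)²`, `T 2 - x = 2x² - 1 - x = (x-1)(2x+1)`.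
Step: `B (n+1)`: `(x-1) w(n+1) (2x w(n+1) - w n) = 2x (T(2n+3) - 1) - (T(2n+2) - x) = T(2n+4) - x`. `A (n+2)`: `(x-1)(2x w(n+1) - w n)² = 4x² (T(2n+3)-1) - 4x (T(2n+2)-x) + (T(2n+1)-1)`
`= T(2n+5) - 1` (use `T(2n+5) = 2x T(2n+4) - T(2n+3)`, `T(2n+4) = 2x T(2n+3) - T(2n+2)`, `T(2n+3) = 2x T(2n+2) - T(2n+1)`). All by `linear_combination`.
Congruence: `w n - (2n+1)` is divisible by `x - 1` (pair induction: `w(n+2) - (2n+5) = 2(x-1) w(n+1) + 2 (w(n+1) - (2n+3)) - (w n - (2n+1))`). -/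
def CHB_stmt : Prop := ∀ (d : ℤ) (a : Pell.Solution₁ d) (i : ℕ),
  ∃ w : ℤ, (a ^ (2 * i + 1)).x - 1 = (a.x - 1) * w ^ 2 ∧ (a.x - 1) ∣ w - (2 * i + 1)

/-- **STR** (short-medium, 70 lines). uses: EVN, CHB. If `4^h + 1 = E C²` then `(2·4^h + 1, 2^(h+1) C)` is the smallest solution of `u² - E v² = 1`.
Proof. `E` is odd; `E` is not a square (`4^h + 1` lies strictly between `(2^h)²` and `(2^h+1)²`), so `E > 1`. `b = (2·4^h + 1, 2^(h+1) C)` is a solution: `(2·4^h+1)² - E (2^(h+1) C)² = (2·4^h+1)² - 4·4^h (4^h+1) = 1`.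
Let `a` be the fundamental solution (`Pell.IsFundamental`, `Pell.exists_of_not_isSquare`/`IsFundamental.exists_of_not_isSquare`), `b = a ^ j` (`IsFundamental.eq_pow_of_nonneg`), `j ≥ 1`. `b.x - 1 = 2·4^h`.
`j = 2 i`: EVN: `2·4^h = 2 E Y²`, so `E ∣ 4^h`, `E` odd, `E = 1`, contradiction. `j = 2 i + 1`: CHB: `2·4^h = (a.x - 1) w²`, so `a.x - 1 ∣ 2 ^ (2h+1)` is a power `2 ^ c` of two
(`(Nat.dvd_prime_pow Nat.prime_two)`), `c ≥ 1` because `c = 0` gives `2·4^h = w²`, impossible (`2 ^ (2h+1)` is not a square), so `a.x - 1` is even and `w` is odd (`w - (2i+1)` is even); `w²` divides `2 ^ (2h+1)` and is odd: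
`w² = 1`, `a.x - 1 = 2·4^h`. Finally for every solution `(u, v)` with `u > 1`: `a.x ≤ u` (`IsFundamental` third part). -/
def STR_stmt : Prop := ∀ h E C : ℕ, 1 ≤ h → 4 ^ h + 1 = E * C ^ 2 →
  ∀ u v : ℤ, u ^ 2 - (E : ℤ) * v ^ 2 = 1 → 1 < u → 2 * 4 ^ h + 1 ≤ u

/-- **DIR** (short, 40 lines). Dirichlet. Proof. `Real.exists_int_int_abs_mul_sub_le (√E) (n_pos)`: integers `j, k`, `0 < k ≤ n`, `|k √E - j| ≤ 1/(n+1) ≤ 1/2`. `√E ≥ 1` gives `j ≥ 1/2`, so `j ≥ 1`.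
Divide by `g = gcd(j, k)`: `|k/g √E - j/g| = |k √E - j| / g ≤ |k √E - j|`. -/
def DIR_stmt : Prop := ∀ E n : ℕ, 1 ≤ E → 1 ≤ n →
  ∃ x y : ℕ, 1 ≤ y ∧ y ≤ n ∧ Nat.Coprime x y ∧ |(x : ℝ) - y * √(E : ℝ)| ≤ 1 / (n + 1)

/-- **CHN** (medium, 90 lines). uses: DIR. Proof. Step lemma: given `n ≥ 1` and the pair `(x, y)` of DIR for `n`: `x ≤ y √E + 1`, and
`|x² - E y²| = |x - y√E| (x + y√E) ≤ (1/(n+1)) (2 y √E + 1) ≤ (2 n √E + 1)/(n+1) ≤ 2 √E`. Start: DIR with `n = 1` (`y = 1`). Given `(x_i, y_i)`: `E` is not a square, so `x_i² - E y_i² ≠ 0` is an integer, and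
`δ = |x_i - y_i √E| ≥ 1/(x_i + y_i √E) ≥ 1/(2 y_i √E + 1)`. Put `n = ⌈1/δ⌉`; DIR gives the next pair: `|x - y√E| ≤ 1/(n+1) < δ`, and
`y ≤ n ≤ 1/δ + 1 ≤ 2 y_i √E + 2 ≤ (2√E + 2) y_i`. Recursion: the type of pairs with the properties (use `Nat.rec` on a subtype, or `exists_seq_strictMono`-free:
`choose` a step function on all pairs with `1 ≤ y`, `x ≤ y√E + 1`, then iterate). -/
def CHN_stmt : Prop := ∀ E : ℕ, 1 ≤ E → ¬ IsSquare E → ∃ x y : ℕ → ℕ, ∀ i : ℕ,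
  1 ≤ y i ∧ Nat.Coprime (x i) (y i) ∧ (y i : ℝ) ≤ (2 * √(E : ℝ) + 2) ^ i ∧ (x i : ℝ) ≤ y i * √(E : ℝ) + 1 ∧
  |(x i : ℝ) ^ 2 - E * (y i : ℝ) ^ 2| ≤ 2 * √(E : ℝ) ∧
  |(x (i + 1) : ℝ) - y (i + 1) * √(E : ℝ)| < |(x i : ℝ) - y i * √(E : ℝ)|

/-- **UNT** (medium, 70 lines). Two elements with the same norm and the same class give a unit.
Proof. `A = x x' - E y y'`, `B = x' y - x y'`: `A² - E B² = t²`. `t ∣ B`, so `t² ∣ A²`, `t ∣ A`. `u = |A / t|`, `v = B / t`: `u² - E v² = 1`. `v ≠ 0`: otherwise `x' y = x y'`, and by coprimality `x = x'`, `y = y'`.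
So `u² = 1 + E v² ≥ 2` (`E ≥ 1`), `u > 1`. Bound: `|A ± B √E| = |x ∓ y√E| |x' ± y'√E|`; `|A| ≤ (|A + B√E| + |A - B√E|)/2`, `|x - y√E| = |t|/(x + y√E)`, same for `x'`; with `s = x + y√E`, `s' = x' + y'√E` (`≥ 1`):
`|A| / |t| ≤ (s/s' + s'/s)/2 ≤ max s s'`. -/
def UNT_stmt : Prop := ∀ (E x y x' y' : ℕ) (t : ℤ), 1 ≤ E → t ≠ 0 → 1 ≤ y → 1 ≤ y' → Nat.Coprime x y → Nat.Coprime x' y' →
  (x : ℤ) ^ 2 - E * (y : ℤ) ^ 2 = t → (x' : ℤ) ^ 2 - E * (y' : ℤ) ^ 2 = t → t ∣ (x : ℤ) * y' - x' * y → ¬ (x = x' ∧ y = y') →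
  ∃ u v : ℤ, u ^ 2 - (E : ℤ) * v ^ 2 = 1 ∧ 1 < u ∧ (u : ℝ) ≤ max ((x : ℝ) + y * √(E : ℝ)) ((x' : ℝ) + y' * √(E : ℝ))

/-- **RHO** (medium, 100 lines). `E` odd and square free: at most `2 d(t)` square roots modulo `t`.
Proof. If there is no root, trivial. Fix a root `P₀ < t`. Map a root `P` to `g = gcd(P - P₀, t)` (`Int.gcd`), a divisor of `t`. Claim: at most 2 roots `P < t` have the same `g`. Since `t ∣ (P - P₀)(P + P₀)`, `t/g` divides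
`P + P₀` (`(t/g)` is coprime to `(P - P₀)/g`). Let `h = gcd(g, t/g)`. `h` divides `P - P₀` and `P + P₀`, so `h ∣ 2 P₀` and `h² ∣ t ∣ P₀² - E`. If an odd prime `p` divides `h`: `p ∣ P₀`, `p² ∣ E`, contradiction. If `4 ∣ h`: `2 ∣ P₀`, but
`P₀² = E` modulo `2` is odd, contradiction. So `h ∣ 2` (`h` has no odd prime factor, so it is a power of two, not divisible by 4). Two roots `P, P'` with the same `g`: `g ∣ P - P'` and `t/g ∣ P - P'` so `lcm(g, t/g) = t/h` divides `P - P'`, hence `t ∣ 2 (P - P')`,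
with `0 ≤ P, P' < t`: `P = P'` or `|P - P'| = t/2`: at most two values (three values `P < P' < P''` would give `P'' - P ≥ t`). Then `Finset.card_le_mul_card_image` (fibres of size `≤ 2`, image in `t.divisors`). -/
def RHO_stmt : Prop := ∀ E t : ℕ, Odd E → Squarefree E → 1 ≤ t → rho E t ≤ 2 * t.divisors.card

/-- **DSM** (short, 30 lines). `∑_(t ≤ T) d(t) = ∑_(e ≤ T) ⌊T/e⌋ ≤ T (1 + log T)` (`harmonic_le_one_add_log`; for the first identity: `∑_t ∑_(e ∣ t) 1`, or Mathlib / other seats' lemma). -/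
def DSM_stmt : Prop := ∀ T : ℕ, 1 ≤ T → ∑ t ∈ Icc 1 T, ((t.divisors.card : ℕ) : ℝ) ≤ T * (1 + Real.log T)

/-- **PIG** (medium, 90 lines). uses: CHN, UNT, RHO. Proof. `E` is not a square (`Squarefree`, `E ≥ 2`). Chain of CHN, `i = 0, ..., R`, `R = 4 ∑ d(t)`. `t_i = x_i² - E y_i²`, `1 ≤ |t_i| ≤ T = ⌊2√E⌋₊`. `y_i` is coprime to `t_i` (a common prime divides `x_i`), so there is `P_i < |t_i|`
with `P_i y_i = x_i` modulo `t_i`, and `P_i² = E` modulo `t_i`. Map `i ↦ (t_i, P_i)` into the set of pairs `(t, P)`, `t ∈ {± 1, ..., ± T}`, `P` a root modulo `|t|`; its cardinality is `∑ 2 rho E |t| ≤ R` (RHO), so two indices `i < j ≤ R` have the same image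
(`Finset.exists_ne_map_eq_of_card_lt_of_maps_to`). Then `t ∣ x_i y_j - x_j y_i` (`= P y_i y_j - P y_j y_i`). The pairs are different since `|x - y√E|` is strictly decreasing. UNT: `u ≤ max (x + y√E) ≤ 2 y √E + 1 ≤ (2√E + 2) (2√E + 2)^R`. -/
def PIG_stmt : Prop := ∀ E : ℕ, Odd E → Squarefree E → 2 ≤ E → ∃ u v : ℤ, u ^ 2 - (E : ℤ) * v ^ 2 = 1 ∧ 1 < u ∧
  (u : ℝ) ≤ (2 * √(E : ℝ) + 2) ^ (4 * (∑ t ∈ Icc 1 ⌊2 * √(E : ℝ)⌋₊, t.divisors.card) + 1)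

/-- **NUM** (short-medium, 50 lines). Proof. `s = √E ≥ √5 > 2.236`, `ℓ = log E ≥ log 5 > 1.609`. Logarithms: `2 h log 2 ≤ (K + 1) log(2s + 2)`. `2s + 2 ≤ 3s`, `log(2s+2) ≤ log 3 + ℓ/2 ≤ 1.0987 + ℓ/2 ≤ 1.184 ℓ`.
`1 + log(2s) ≤ 1.6932 + ℓ/2 ≤ 1.5524 ℓ`, `K + 1 ≤ 8 s · 1.5524 ℓ + 1 ≤ 12.70 s ℓ` (`s ℓ ≥ 3.59`). So `h ≤ 12.70 · 1.184/(2 · 0.6931) s ℓ² ≤ 10.85 s ℓ²`.
(`Real.log_two_gt_d9`, `log 5 ≥ 1.609`: `exp 1.609 ≤ 5`, e.g. from `log 5 = log(5/4) + 2 log 2`, `log(5/4) ≥ 1/5 + ..`, any slack: replace `1.609` by `1.6`; the constants still give `≤ 11`: check.) -/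
def NUM_stmt : Prop := ∀ h E K : ℕ, 5 ≤ E → (K : ℝ) ≤ 4 * (2 * √(E : ℝ)) * (1 + Real.log (2 * √(E : ℝ))) →
  (4 : ℝ) ^ h ≤ (2 * √(E : ℝ) + 2) ^ (K + 1) → (h : ℝ) ≤ 11 * √(E : ℝ) * (Real.log E) ^ 2

/-- **FER** (short, 30 lines). Proof. `E ≥ 4^m`: clear. `E < 4^m`: `log E ≤ m log 4`, `2^m ≤ 22 √E (m log 4)²`, square: `4^m ≤ 484 (log 4)⁴ m⁴ E ≤ 1800 m⁴ E` (`log 4 = 2 log 2 ≤ 1.38630`, `(log 4)⁴ ≤ 3.694`). -/
def FER_stmt : Prop := ∀ m E : ℕ, 1 ≤ m → 1 ≤ E → ((2 : ℝ) ^ (m - 1)) ≤ 11 * √(E : ℝ) * (Real.log E) ^ 2 →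
  4 ^ m ≤ 1800 * m ^ 4 * E

/-- **FIN** (short-medium, 50 lines). uses: STR, PIG, DSM, NUM, FER. Proof. `4^h + 1 = E C²`: `E` is odd, `E ≠ 1` (`4^h + 1` is not a square), `E ≠ 3` (`4^h + 1 = 2` modulo 3), so `E ≥ 5`. PIG: a unit `u`, STR: `4^h ≤ u`. `K = 4 ∑_(t ≤ T) d(t)`, `T = ⌊2√E⌋₊ ≥ 1`,
DSM: `K ≤ 4 T (1 + log T) ≤ 4 (2√E)(1 + log(2√E))`. NUM. Fermat numbers: `m ≥ 1`, `2^(2^m) = 4^(2^(m-1))`, FER. -/
def FIN_stmt : Prop :=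
  (∀ h E C : ℕ, 1 ≤ h → Squarefree E → 4 ^ h + 1 = E * C ^ 2 → (h : ℝ) ≤ 11 * √(E : ℝ) * (Real.log E) ^ 2) ∧
  ∀ m E C : ℕ, 1 ≤ m → Squarefree E → 2 ^ (2 ^ m) + 1 = E * C ^ 2 → 4 ^ m ≤ 1800 * m ^ 4 * E

end Pool.Agent.SF
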